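import Mathlib

set_option autoImplicit false

namespace Pool.Agent.Helper12.SketchSep

open Finset

/-- The parity `χ_S(x) = ∑_{i ∈ S} x_i mod 2`. -/
def chi {n : ℕ} (S : Finset (Fin n)) (x : Fin n → ZMod 2) : ZMod 2 := ∑ i ∈ S, x i

/-- `f` has a randomized linear sketch over `𝔽₂` with `k` parities: a probability distribution `p`
on the `k`-tuples `(S_1, …, S_k)` of subsets of `[n]` and a decoder `g_{S_1,…,S_k}` for every tuple,
such that for every input `x` the decoder, given `χ_{S_1}(x), …, χ_{S_k}(x)`, outputs `f x` with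
probability at least `2/3`. -/
def HasSketch {n : ℕ} (f : (Fin n → ZMod 2) → Bool) (k : ℕ) : Prop :=
  ∃ (p : (Fin k → Finset (Fin n)) → ℝ)
    (g : (Fin k → Finset (Fin n)) → (Fin k → ZMod 2) → Bool),
    (∀ S, 0 ≤ p S) ∧ ∑ S, p S = 1 ∧
    ∀ x, (2 : ℝ) / 3 ≤ ∑ S, if g S (fun j => chi (S j) x) = f x then p S else 0

/-- The randomized linear sketch complexity `R^lin(f)`. -/
noncomputable def Rlin {n : ℕ} (f : (Fin n → ZMod 2) → Bool) : ℕ := sInf {k | HasSketch f k}

/-- `F` has a public-coin randomized one-way protocol of cost `c`: there is a finite probability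
space `(Ω, p)` (the shared randomness); Alice, holding `x`, sends the `c`-bit message `A ω x`, and
Bob, holding `y`, outputs `B ω (message) y`; on every input `(x, y)` the output is `F x y` with
probability at least `2/3`. -/
def HasOneWay {X Y : Type} (F : X → Y → Bool) (c : ℕ) : Prop :=
  ∃ (Ω : Type) (_ : Fintype Ω) (p : Ω → ℝ) (A : Ω → X → (Fin c → Bool))
    (B : Ω → (Fin c → Bool) → Y → Bool),
    (∀ ω, 0 ≤ p ω) ∧ ∑ ω, p ω = 1 ∧
    ∀ x y, (2 : ℝ) / 3 ≤ ∑ ω, if B ω (A ω x) y = F x y then p ω else 0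

/-- The public-coin randomized one-way communication complexity `R^→(F)`. -/
noncomputable def Rone {X Y : Type} (F : X → Y → Bool) : ℕ := sInf {c | HasOneWay F c}

/-- The XOR function `f⁺(x, y) = f(x ⊕ y)`. -/
def xorFn {n : ℕ} (f : (Fin n → ZMod 2) → Bool) : (Fin n → ZMod 2) → (Fin n → ZMod 2) → Bool :=
  fun x y => f (x + y)

/-! ### The function -/

/-- the 3-subsets of `[N]` -/
abbrev T (N : ℕ) : Type := {X : Finset (Fin N) // X.card = 3}

theorem card_T (N : ℕ) : Fintype.card (T N) = N.choose 3 := by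
  rw [Fintype.card_subtype]
  have : (Finset.univ.filter fun X : Finset (Fin N) => X.card = 3) =
      Finset.powersetCard 3 (Finset.univ : Finset (Fin N)) := by
    ext X; simp [Finset.mem_powersetCard]
  rw [this, Finset.card_powersetCard, Finset.card_univ, Fintype.card_fin]

/-- the number of elements of `X` in the support of `w` -/
def ov {N : ℕ} (w : Fin N → ZMod 2) (X : Finset (Fin N)) : ℕ := (X.filter fun a => w a ≠ 0).card

/-- coordinates -/
noncomputable def ee (N : ℕ) : Fin (N + N.choose 3) ≃ Fin N ⊕ T N :=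
  Fintype.equivOfCardEq (by rw [Fintype.card_sum, Fintype.card_fin, Fintype.card_fin, card_T])

/-- put together an input -/
noncomputable def inp {N : ℕ} (w : Fin N → ZMod 2) (z : T N → ZMod 2) :
    Fin (N + N.choose 3) → ZMod 2 := fun i => Sum.elim w z (ee N i)

/-- first part -/
noncomputable def p1 {N : ℕ} (x : Fin (N + N.choose 3) → ZMod 2) : Fin N → ZMod 2 :=
  fun a => x ((ee N).symm (Sum.inl a))

/-- second part -/
noncomputable def p2 {N : ℕ} (x : Fin (N + N.choose 3) → ZMod 2) : T N → ZMod 2 :=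
  fun X => x ((ee N).symm (Sum.inr X))

theorem p1_inp {N : ℕ} (w : Fin N → ZMod 2) (z : T N → ZMod 2) : p1 (inp w z) = w := by
  funext a; simp [p1, inp]

theorem p2_inp {N : ℕ} (w : Fin N → ZMod 2) (z : T N → ZMod 2) : p2 (inp w z) = z := by
  funext a; simp [p2, inp]

theorem p1_add {N : ℕ} (x y : Fin (N + N.choose 3) → ZMod 2) : p1 (x + y) = p1 x + p1 y := rfl

theorem p2_add {N : ℕ} (x y : Fin (N + N.choose 3) → ZMod 2) : p2 (x + y) = p2 x + p2 y := rfl

open Classical in
/-- The function: `f(w, z) = 1` iff every 3-subset `X` with `z_X = 1` meets the support of `w` in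
exactly one point. -/
noncomputable def ff (N : ℕ) (x : Fin (N + N.choose 3) → ZMod 2) : Bool :=
  decide (∀ X : T N, p2 x X ≠ 0 → ov (p1 x) X.1 = 1)

/-! ### The one-way protocol -/

theorem hasOneWay_of_msg {X Y M : Type} [Fintype M] [Nonempty M] (F : X → Y → Bool) (c : ℕ)
    (hM : Fintype.card M ≤ 2 ^ c)
    (Ω : Type) [Fintype Ω] (p : Ω → ℝ) (A : Ω → X → M) (B : Ω → M → Y → Bool)
    (h0 : ∀ ω, 0 ≤ p ω) (h1 : ∑ ω, p ω = 1)
    (h : ∀ x y, (2 : ℝ) / 3 ≤ ∑ ω, if B ω (A ω x) y = F x y then p ω else 0) :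
    HasOneWay F c := by
  classical
  have hc : Fintype.card M ≤ Fintype.card (Fin c → Bool) := by
    simpa using hM
  obtain ⟨e⟩ := Function.Embedding.nonempty_of_card_le hc
  refine ⟨Ω, inferInstance, p, fun ω x => e (A ω x), fun ω m y => B ω (Function.invFun e m) y,
    h0, h1, fun x y => ?_⟩
  have : ∀ ω, Function.invFun e (e (A ω x)) = A ω x := fun ω =>
    Function.leftInverse_invFun e.injective _
  simp only [this]
  exact h x y

/-- lift a bit to `ZMod 3` -/
def lf (t : ZMod 2) : ZMod 3 := if t = 0 then 0 else 1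

/-- the coefficient -/
def rho {N : ℕ} (w : Fin N → ZMod 2) (X : T N) : ZMod 3 := (ov w X.1 : ZMod 3) - 1

theorem ov_le {N : ℕ} (w : Fin N → ZMod 2) (X : T N) : ov w X.1 ≤ 3 := by
  have := Finset.card_filter_le X.1 (fun a => w a ≠ 0)
  rw [X.2] at this
  exact this

theorem rho_eq_zero {N : ℕ} (w : Fin N → ZMod 2) (X : T N) : rho w X = 0 ↔ ov w X.1 = 1 := by
  unfold rho
  have h := ov_le w X
  interval_cases h' : ov w X.1 <;> decide

/-- the sums sent by Alice -/
def msg {N : ℕ} (u : T N → ZMod 2) (o : Option (Fin N)) : ZMod 3 :=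
  match o with
  | none => ∑ X : T N, lf (u X)
  | some a => ∑ X : T N, if a ∈ X.1 then lf (u X) else 0

/-- Bob's value computed from the message -/
def bobv {N : ℕ} (w : Fin N → ZMod 2) (m : Option (Fin N) → ZMod 3) : ZMod 3 :=
  (∑ a, if w a ≠ 0 then m (some a) else 0) - m none

theorem bobv_msg {N : ℕ} (w : Fin N → ZMod 2) (u : T N → ZMod 2) :
    bobv w (msg u) = ∑ X : T N, rho w X * lf (u X) := by
  unfold bobv msg rho ov
  have h : ∀ X : T N, (((X.1.filter fun a => w a ≠ 0).card : ZMod 3) - 1) * lf (u X) =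
      (∑ a, if w a ≠ 0 then (if a ∈ X.1 then lf (u X) else 0) else 0) - lf (u X) := by
    intro X
    have : (∑ a, if w a ≠ 0 then (if a ∈ X.1 then lf (u X) else 0) else 0) =
        ((X.1.filter fun a => w a ≠ 0).card : ZMod 3) * lf (u X) := by
      rw [← nsmul_eq_mul, ← Finset.sum_const, Finset.sum_filter]
      rw [← Finset.sum_filter_add_sum_filter_not (Finset.univ : Finset (Fin N)) (fun a => a ∈ X.1)]
      rw [Finset.filter_mem_eq_inter, Finset.univ_inter]
      have h2 : ∑ a ∈ Finset.univ.filter (fun a => a ∉ X.1),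
          (if w a ≠ 0 then (if a ∈ X.1 then lf (u X) else 0) else 0) = 0 := by
        refine Finset.sum_eq_zero fun a ha => ?_
        rw [Finset.mem_filter] at ha
        simp [ha.2]
      rw [h2, add_zero]
      refine Finset.sum_congr rfl fun a ha => ?_
      simp [ha]
    rw [this]; ring
  simp only [h]
  rw [Finset.sum_sub_distrib, Finset.sum_comm]
  congr 1
  refine Finset.sum_congr rfl fun a _ => ?_
  by_cases hw : w a = 0 <;> simp [hw]

/-- the check -/
def chk {N : ℕ} (w : Fin N → ZMod 2) (u v : T N → ZMod 2) : Prop :=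
  (∑ X : T N, rho w X * lf (v X)) = ∑ X : T N, rho w X * lf (u X)

theorem chk_yes {N : ℕ} (w : Fin N → ZMod 2) (x y r : T N → ZMod 2)
    (h : ∀ X : T N, (x + y) X ≠ 0 → ov w X.1 = 1) : chk w (x + r) (y + r) := by
  unfold chk
  refine Finset.sum_congr rfl fun X _ => ?_
  by_cases hX : (x + y) X = 0
  · have : x X = y X := by
      have h1 : x X + y X = 0 := hX
      generalize x X = a at h1 ⊢
      generalize y X = b at h1 ⊢
      revert a b; decide
    simp [this]
  · rw [(rho_eq_zero w X).2 (h X hX)]; simp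

/-- unit vector -/
def sg {N : ℕ} (X0 : T N) : T N → ZMod 2 := fun X => if X = X0 then 1 else 0

theorem sg_self {N : ℕ} (X0 : T N) : sg X0 X0 = 1 := if_pos rfl

theorem sg_ne {N : ℕ} {X0 X : T N} (h : X ≠ X0) : sg X0 X = 0 := if_neg h

theorem chk_flip {N : ℕ} (w : Fin N → ZMod 2) (x y r : T N → ZMod 2) (X0 : T N)
    (hX : (x + y) X0 ≠ 0) (hw : ov w X0.1 ≠ 1) (h : chk w (x + r) (y + r)) :
    ¬ chk w (x + (r + sg X0)) (y + (r + sg X0)) := by
  intro h'
  unfold chk at h h'
  have hr : rho w X0 ≠ 0 := fun hh => hw ((rho_eq_zero w X0).1 hh)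
  have key : (∑ X : T N, rho w X * lf ((y + (r + sg X0)) X) -
      ∑ X : T N, rho w X * lf ((x + (r + sg X0)) X)) -
      (∑ X : T N, rho w X * lf ((y + r) X) - ∑ X : T N, rho w X * lf ((x + r) X)) =
      rho w X0 * ((lf ((y + r) X0 + 1) - lf ((x + r) X0 + 1)) -
        (lf ((y + r) X0) - lf ((x + r) X0))) := by
    rw [← Finset.sum_sub_distrib, ← Finset.sum_sub_distrib, ← Finset.sum_sub_distrib]
    rw [Finset.sum_eq_single X0]
    · have e1 : (y + (r + sg X0)) X0 = (y + r) X0 + 1 := by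
        simp only [Pi.add_apply, sg_self, add_assoc]
      have e2 : (x + (r + sg X0)) X0 = (x + r) X0 + 1 := by
        simp only [Pi.add_apply, sg_self, add_assoc]
      rw [e1, e2]; ring
    · intro X _ hne
      have e1 : (y + (r + sg X0)) X = (y + r) X := by
        simp only [Pi.add_apply, sg_ne hne, add_zero]
      have e2 : (x + (r + sg X0)) X = (x + r) X := by
        simp only [Pi.add_apply, sg_ne hne, add_zero]
      rw [e1, e2]; ring
    · intro hh; exact absurd (Finset.mem_univ _) hh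
  rw [h, h', sub_self, sub_self, sub_self] at key
  have h2 := (mul_eq_zero.1 key.symm).resolve_left hr
  have h3 : x X0 + y X0 ≠ 0 := hX
  have e1 : (y + r) X0 = y X0 + r X0 := rfl
  have e2 : (x + r) X0 = x X0 + r X0 := rfl
  rw [e1, e2] at h2
  generalize x X0 = a at h2 h3
  generalize y X0 = b at h2 h3
  generalize r X0 = c at h2 h3
  revert a b c
  decide

open Classical in
theorem chk_no {N : ℕ} (w : Fin N → ZMod 2) (x y : T N → ZMod 2) (X0 : T N)
    (hX : (x + y) X0 ≠ 0) (hw : ov w X0.1 ≠ 1) :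
    2 * (Finset.univ.filter fun r : T N → ZMod 2 => chk w (x + r) (y + r)).card ≤
      Fintype.card (T N → ZMod 2) := by
  set P := Finset.univ.filter fun r : T N → ZMod 2 => chk w (x + r) (y + r) with hP
  have hinj : Function.Injective fun r : T N → ZMod 2 => r + sg X0 :=
    add_left_injective _
  have hdisj : Disjoint P (P.image fun r => r + sg X0) := by
    rw [Finset.disjoint_left]
    intro r hr hr'
    rw [Finset.mem_image] at hr'
    obtain ⟨s, hs, rfl⟩ := hr'
    rw [hP, Finset.mem_filter] at hr hs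
    exact chk_flip w x y s X0 hX hw hs.2 hr.2
  have := Finset.card_le_univ (P ∪ P.image fun r => r + sg X0)
  rw [Finset.card_union_of_disjoint hdisj, Finset.card_image_of_injective _ hinj] at this
  omega

/-! ### cost of the protocol -/

theorem sum_ite_const {Ω : Type} [Fintype Ω] (q : ℝ) (P : Ω → Prop) [DecidablePred P] :
    (∑ ω, if P ω then q else 0) = (Finset.univ.filter P).card * q := by
  rw [← Finset.sum_filter, Finset.sum_const, nsmul_eq_mul]

open Classical in
theorem hasOneWay_ff (N : ℕ) : HasOneWay (xorFn (ff N)) (5 * N + 4) := by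
  classical
  let R := T N → ZMod 2
  let M := (Fin N → ZMod 2) × ((Option (Fin N) → ZMod 3) × (Option (Fin N) → ZMod 3))
  have hcard : Fintype.card M ≤ 2 ^ (5 * N + 4) := by
    have e : Fintype.card M = 2 ^ N * (3 ^ (N + 1) * 3 ^ (N + 1)) := by
      simp [M, Fintype.card_prod, ZMod.card]
    rw [e]
    have h4 : (3 : ℕ) ^ (N + 1) ≤ 4 ^ (N + 1) := Nat.pow_le_pow_left (by norm_num) _
    calc 2 ^ N * (3 ^ (N + 1) * 3 ^ (N + 1)) ≤ 2 ^ N * (4 ^ (N + 1) * 4 ^ (N + 1)) :=
          Nat.mul_le_mul_left _ (Nat.mul_le_mul h4 h4)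
      _ = 2 ^ (5 * N + 4) := by
          rw [show (4 : ℕ) = 2 ^ 2 by norm_num, ← pow_mul, ← pow_add, ← pow_add]
          congr 1; ring
  have hpos : 0 < Fintype.card (R × R) := Fintype.card_pos
  have hposR : (0 : ℝ) < Fintype.card (R × R) := by exact_mod_cast hpos
  refine hasOneWay_of_msg (M := M) (xorFn (ff N)) (5 * N + 4) hcard (R × R)
    (fun _ => 1 / (Fintype.card (R × R) : ℝ))
    (fun ω x => (p1 x, (msg (p2 x + ω.1), msg (p2 x + ω.2))))
    (fun ω m y => decide (
      (∑ X : T N, rho (m.1 + p1 y) X * lf ((p2 y + ω.1) X)) = bobv (m.1 + p1 y) m.2.1 ∧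
      (∑ X : T N, rho (m.1 + p1 y) X * lf ((p2 y + ω.2) X)) = bobv (m.1 + p1 y) m.2.2))
    (fun _ => by positivity) ?_ ?_
  · rw [Finset.sum_const, Finset.card_univ, nsmul_eq_mul]
    field_simp
  · intro x y
    have hB : ∀ ω : R × R, (decide (
        (∑ X : T N, rho (p1 x + p1 y) X * lf ((p2 y + ω.1) X)) =
          bobv (p1 x + p1 y) (msg (p2 x + ω.1)) ∧
        (∑ X : T N, rho (p1 x + p1 y) X * lf ((p2 y + ω.2) X)) =
          bobv (p1 x + p1 y) (msg (p2 x + ω.2)))) =
        decide (chk (p1 x + p1 y) (p2 x + ω.1) (p2 y + ω.1) ∧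
          chk (p1 x + p1 y) (p2 x + ω.2) (p2 y + ω.2)) := by
      intro ω
      rw [bobv_msg, bobv_msg]
      exact decide_eq_decide.2 Iff.rfl
    simp only [hB]
    rw [sum_ite_const]
    by_cases hf : ∀ X : T N, p2 (x + y) X ≠ 0 → ov (p1 (x + y)) X.1 = 1
    · have h1 : xorFn (ff N) x y = true := by
        unfold xorFn ff
        exact decide_eq_true hf
      have h2 : (Finset.univ.filter fun ω : R × R =>
          decide (chk (p1 x + p1 y) (p2 x + ω.1) (p2 y + ω.1) ∧
          chk (p1 x + p1 y) (p2 x + ω.2) (p2 y + ω.2)) = xorFn (ff N) x y) = Finset.univ := by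
        rw [Finset.filter_eq_self]
        intro ω _
        rw [h1]
        exact decide_eq_true ⟨chk_yes _ _ _ _ hf, chk_yes _ _ _ _ hf⟩
      rw [h2, Finset.card_univ]
      rw [mul_one_div_cancel hposR.ne']
      norm_num
    · have h1 : xorFn (ff N) x y = false := by
        unfold xorFn ff
        exact decide_eq_false hf
      push Not at hf
      obtain ⟨X0, hX, hw⟩ := hf
      set P := Finset.univ.filter fun r : R => chk (p1 x + p1 y) (p2 x + r) (p2 y + r) with hP
      have hP2 : 2 * P.card ≤ Fintype.card R := chk_no _ _ _ X0 hX hw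
      have h2 : (Finset.univ.filter fun ω : R × R =>
          decide (chk (p1 x + p1 y) (p2 x + ω.1) (p2 y + ω.1) ∧
          chk (p1 x + p1 y) (p2 x + ω.2) (p2 y + ω.2)) = xorFn (ff N) x y) = (P ×ˢ P)ᶜ := by
        ext ω
        rw [h1]
        simp [hP, Finset.mem_product]
      rw [h2, Finset.card_compl, Finset.card_product]
      have hcc : Fintype.card (R × R) = Fintype.card R * Fintype.card R := Fintype.card_prod _ _
      have h3 : 4 * (P.card * P.card) ≤ Fintype.card (R × R) := by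
        rw [hcc]
        calc 4 * (P.card * P.card) = (2 * P.card) * (2 * P.card) := by ring
          _ ≤ _ := Nat.mul_le_mul hP2 hP2
      have h4 : P.card * P.card ≤ Fintype.card (R × R) := by omega
      rw [Nat.cast_sub h4]
      have h5 : (4 : ℝ) * ((P.card * P.card : ℕ) : ℝ) ≤ (Fintype.card (R × R) : ℝ) := by
        exact_mod_cast h3
      rw [mul_one_div, le_div_iff₀ hposR]
      linarith

theorem rone_le (N : ℕ) : Rone (xorFn (ff N)) ≤ 5 * N + 4 := Nat.sInf_le (hasOneWay_ff N)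

/-! ### The lower bound for linear sketches -/

/-- the indicator of `w` -/
def ind {N : ℕ} (w : T N) : Fin N → ZMod 2 := fun a => if a ∈ w.1 then 1 else 0

theorem ov_ind {N : ℕ} (w X : T N) : ov (ind w) X.1 = (X.1 ∩ w.1).card := by
  unfold ov ind
  congr 1
  ext a
  simp [Finset.mem_inter]

/-- the sketch as a linear map -/
noncomputable def Lm {n k : ℕ} (S : Fin k → Finset (Fin n)) :
    (Fin n → ZMod 2) →ₗ[ZMod 2] (Fin k → ZMod 2) where
  toFun x := fun j => chi (S j) x
  map_add' x y := by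
    funext j; simp [chi, Finset.sum_add_distrib]
  map_smul' c x := by
    funext j; simp [chi, Finset.mul_sum]

/-- the embedding of the second part -/
noncomputable def em (N : ℕ) : (T N → ZMod 2) →ₗ[ZMod 2] (Fin (N + N.choose 3) → ZMod 2) where
  toFun z := inp 0 z
  map_add' x y := by
    funext i
    have key : ∀ s : Fin N ⊕ T N, Sum.elim (0 : Fin N → ZMod 2) (x + y) s =
        Sum.elim (0 : Fin N → ZMod 2) x s + Sum.elim (0 : Fin N → ZMod 2) y s := by
      rintro (a | a) <;> simp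
    exact key (ee N i)
  map_smul' c x := by
    funext i
    have key : ∀ s : Fin N ⊕ T N, Sum.elim (0 : Fin N → ZMod 2) (c • x) s =
        c * Sum.elim (0 : Fin N → ZMod 2) x s := by
      rintro (a | a) <;> simp
    exact key (ee N i)

theorem inp_eq {N : ℕ} (w : Fin N → ZMod 2) (z : T N → ZMod 2) : inp w z = inp w 0 + em N z := by
  funext i
  have key : ∀ s : Fin N ⊕ T N, Sum.elim w z s =
      Sum.elim w (0 : T N → ZMod 2) s + Sum.elim (0 : Fin N → ZMod 2) z s := by
    rintro (a | a) <;> simp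
  exact key (ee N i)

/-- inputs with value `1` -/
def Yw {N : ℕ} (w : T N) : Submodule (ZMod 2) (T N → ZMod 2) where
  carrier := {y | ∀ X : T N, (X.1 ∩ w.1).card ≠ 1 → y X = 0}
  zero_mem' := fun _ _ => rfl
  add_mem' := by
    intro a b ha hb X hX
    show a X + b X = 0
    rw [ha X hX, hb X hX, add_zero]
  smul_mem' := by
    intro c a ha X hX
    show c * a X = 0
    rw [ha X hX, mul_zero]

theorem ff_yes {N : ℕ} (w : T N) (y : T N → ZMod 2) (hy : y ∈ Yw w) :
    ff N (inp (ind w) y) = true := by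
  unfold ff
  refine decide_eq_true fun X hX => ?_
  rw [p2_inp] at hX
  rw [p1_inp, ov_ind]
  by_contra h
  exact hX (hy X h)

theorem ff_no {N : ℕ} (w : T N) (y : T N → ZMod 2) (hy : y ∈ Yw w) :
    ff N (inp (ind w) (y + sg w)) = false := by
  unfold ff
  refine decide_eq_false fun h => ?_
  have h3 : (w.1 ∩ w.1).card ≠ 1 := by
    rw [Finset.inter_self, w.2]; norm_num
  have h1 := h w (by
    rw [p2_inp, Pi.add_apply, hy w h3, sg_self]; decide)
  rw [p1_inp, ov_ind] at h1
  exact h3 h1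

/-- `w` is good for the sketch `S` -/
def Good {N k : ℕ} (S : Fin k → Finset (Fin (N + N.choose 3))) (w : T N) : Prop :=
  ∃ γ : Fin k → ZMod 2, (∀ X : T N, (X.1 ∩ w.1).card = 1 → ∑ j, γ j * Lm S (em N (sg X)) j = 0) ∧
    ∑ j, γ j * Lm S (em N (sg w)) j = 1

theorem bad_exists {N k : ℕ} (S : Fin k → Finset (Fin (N + N.choose 3))) (w : T N)
    (h : ¬ Good S w) : ∃ y ∈ Yw w, Lm S (em N y) = Lm S (em N (sg w)) := by
  by_contra hno
  apply h
  have hv : Lm S (em N (sg w)) ∉ (Yw w).map ((Lm S).comp (em N)) := by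
    rintro ⟨y, hy, e⟩
    exact hno ⟨y, hy, e⟩
  obtain ⟨f, hf1, hf2⟩ := Submodule.exists_le_ker_of_notMem hv
  have hrep : ∀ v : Fin k → ZMod 2, f v = ∑ j, f (Pi.single j 1) * v j := by
    intro v
    conv_lhs => rw [pi_eq_sum_univ v]
    rw [map_sum]
    refine Finset.sum_congr rfl fun j _ => ?_
    rw [map_smul, smul_eq_mul, mul_comm]
    congr 2
    funext i
    by_cases hi : j = i
    · subst hi; simp
    · simp [hi, Ne.symm hi]
  refine ⟨fun j => f (Pi.single j 1), fun X hX => ?_, ?_⟩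
  · rw [← hrep]
    have hm : sg X ∈ Yw w := by
      intro X' hX'
      refine sg_ne ?_
      rintro rfl
      exact hX' hX
    exact hf2 ⟨sg X, hm, rfl⟩
  · rw [← hrep]
    generalize f (Lm S (em N (sg w))) = t at hf1
    revert t; decide

open Classical in
theorem card_good_le {N k : ℕ} (S : Fin k → Finset (Fin (N + N.choose 3))) :
    (Finset.univ.filter fun w : T N => Good S w).card ≤ k * N := by
  set G := Finset.univ.filter fun w : T N => Good S w with hG
  have hg : ∀ w : G, Good S w.1 := fun w => (Finset.mem_filter.1 w.2).2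
  choose γ h0 h1 using hg
  let V : Matrix G (Fin k × Fin N) (ZMod 2) := fun w i => γ w i.1 * ind w.1 i.2
  let U : Matrix (Fin k × Fin N) G (ZMod 2) := fun i X => Lm S (em N (sg X.1)) i.1 * ind X.1 i.2
  have hVU : V * U = 1 := by
    ext w X
    rw [Matrix.mul_apply]
    have e : ∑ i : Fin k × Fin N, V w i * U i X =
        (∑ j, γ w j * Lm S (em N (sg X.1)) j) * ((X.1.1 ∩ w.1.1).card : ZMod 2) := by
      rw [Fintype.sum_prod_type, Finset.sum_mul]
      refine Finset.sum_congr rfl fun j _ => ?_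
      have e2 : ((X.1.1 ∩ w.1.1).card : ZMod 2) = ∑ a, ind w.1 a * ind X.1 a := by
        rw [Finset.card_eq_sum_ones, Nat.cast_sum, ← Finset.sum_filter_add_sum_filter_not
          (Finset.univ : Finset (Fin N)) (fun a => a ∈ X.1.1 ∩ w.1.1)]
        rw [Finset.filter_mem_eq_inter, Finset.univ_inter]
        have h2 : ∑ a ∈ Finset.univ.filter (fun a => a ∉ X.1.1 ∩ w.1.1),
            ind w.1 a * ind X.1 a = 0 := by
          refine Finset.sum_eq_zero fun a ha => ?_
          rw [Finset.mem_filter, Finset.mem_inter] at ha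
          unfold ind
          by_cases h3 : a ∈ w.1.1
          · by_cases h4 : a ∈ X.1.1
            · exact absurd ⟨h4, h3⟩ ha.2
            · simp [h4]
          · simp [h3]
        rw [h2, add_zero]
        refine Finset.sum_congr rfl fun a ha => ?_
        rw [Finset.mem_inter] at ha
        simp [ind, ha.1, ha.2]
      rw [e2, Finset.mul_sum]
      refine Finset.sum_congr rfl fun a _ => ?_
      show γ w j * ind w.1 a * (Lm S (em N (sg X.1)) j * ind X.1 a) = _
      ring
    rw [e, Matrix.one_apply]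
    by_cases hwX : w = X
    · subst hwX
      rw [if_pos rfl, h1, Finset.inter_self, w.1.2]
      decide
    · rw [if_neg hwX]
      have hle : (X.1.1 ∩ w.1.1).card ≤ 2 := by
        by_contra hlt
        push Not at hlt
        have h3 : X.1.1 ∩ w.1.1 = X.1.1 := Finset.eq_of_subset_of_card_le
          Finset.inter_subset_left (by rw [X.1.2]; omega)
        have h4 : X.1.1 ∩ w.1.1 = w.1.1 := Finset.eq_of_subset_of_card_le
          Finset.inter_subset_right (by rw [w.1.2]; omega)
        exact hwX (Subtype.ext (Subtype.ext (h4.symm.trans h3)))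
      rcases (by omega : (X.1.1 ∩ w.1.1).card = 0 ∨ (X.1.1 ∩ w.1.1).card = 1 ∨
        (X.1.1 ∩ w.1.1).card = 2) with h5 | h5 | h5
      · rw [h5]; simp
      · rw [h0 w X.1 h5, zero_mul]
      · rw [h5]
        have : ((2 : ℕ) : ZMod 2) = 0 := by decide
        rw [this, mul_zero]
  have hr : (1 : Matrix G G (ZMod 2)).rank = Fintype.card G := Matrix.rank_one
  have hr2 : (V * U).rank ≤ V.rank := Matrix.rank_mul_le_left V U
  have hr3 : V.rank ≤ Fintype.card (Fin k × Fin N) := Matrix.rank_le_card_width V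
  rw [hVU, hr] at hr2
  have h6 : Fintype.card (Fin k × Fin N) = k * N := by simp
  have h7 : Fintype.card G = G.card := Fintype.card_coe G
  omega


open Classical in
/-- count of the correct answers on a pair of inputs -/
noncomputable def cnt {N k : ℕ} (S : Fin k → Finset (Fin (N + N.choose 3)))
    (g : (Fin k → ZMod 2) → Bool) (w : T N) : ℕ :=
  ∑ y : Yw w, ((if g (Lm S (inp (ind w) y.1)) = true then 1 else 0) +
    (if g (Lm S (inp (ind w) (y.1 + sg w))) = false then 1 else 0))

theorem cnt_le {N k : ℕ} (S : Fin k → Finset (Fin (N + N.choose 3)))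
    (g : (Fin k → ZMod 2) → Bool) (w : T N) : cnt S g w ≤ 2 * Nat.card (Yw w) := by
  classical
  unfold cnt
  rw [Nat.card_eq_fintype_card, ← Finset.card_univ, mul_comm, ← smul_eq_mul, ← Finset.sum_const]
  refine Finset.sum_le_sum fun y _ => ?_
  split_ifs <;> norm_num

theorem cnt_bad {N k : ℕ} (S : Fin k → Finset (Fin (N + N.choose 3)))
    (g : (Fin k → ZMod 2) → Bool) (w : T N) (h : ¬ Good S w) : cnt S g w = Nat.card (Yw w) := by
  classical
  obtain ⟨y0, hy0, he⟩ := bad_exists S w h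
  unfold cnt
  rw [Finset.sum_add_distrib]
  have e1 : ∀ y : Yw w, Lm S (inp (ind w) (y.1 + sg w)) =
      Lm S (inp (ind w) ((Equiv.addRight (⟨y0, hy0⟩ : Yw w)) y).1) := by
    intro y
    show Lm S (inp (ind w) (y.1 + sg w)) = Lm S (inp (ind w) (y.1 + y0))
    rw [inp_eq, inp_eq (ind w) (y.1 + y0), map_add, map_add, map_add, map_add, map_add, map_add, he]
  have e2 : (∑ y : Yw w, if g (Lm S (inp (ind w) (y.1 + sg w))) = false then 1 else 0) =
      ∑ y : Yw w, if g (Lm S (inp (ind w) y.1)) = false then 1 else 0 := by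
    simp only [e1]
    exact Equiv.sum_comp (Equiv.addRight (⟨y0, hy0⟩ : Yw w))
      (fun y : Yw w => if g (Lm S (inp (ind w) y.1)) = false then 1 else 0)
  rw [e2, ← Finset.sum_add_distrib, Nat.card_eq_fintype_card, ← Finset.card_univ,
    Finset.card_eq_sum_ones]
  refine Finset.sum_congr rfl fun y _ => ?_
  cases g (Lm S (inp (ind w) y.1)) <;> simp

theorem sketch_bound {N k : ℕ} (h : HasSketch (ff N) k) : N.choose 3 ≤ 3 * (k * N) := by
  classical
  obtain ⟨p, g, hp0, hp1, hs⟩ := h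
  -- per w
  have hw : ∀ w : T N, (1 : ℝ) / 3 ≤ ∑ S, if Good S w then p S else 0 := by
    intro w
    have hcard : (0 : ℝ) < Nat.card (Yw w) := by
      have : 0 < Nat.card (Yw w) := Nat.card_pos
      exact_mod_cast this
    have h1 : (4 : ℝ) / 3 * Nat.card (Yw w) ≤ ∑ S, p S * cnt S (g S) w := by
      have h2 : ∀ y : Yw w, (4 : ℝ) / 3 ≤ ∑ S, p S *
          (((if g S (Lm S (inp (ind w) y.1)) = true then 1 else 0) +
          (if g S (Lm S (inp (ind w) (y.1 + sg w))) = false then 1 else 0) : ℕ) : ℝ) := by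
        intro y
        have ha := hs (inp (ind w) y.1)
        have hb := hs (inp (ind w) (y.1 + sg w))
        rw [ff_yes w y.1 y.2] at ha
        rw [ff_no w y.1 y.2] at hb
        have hc : ∑ S, p S *
          (((if g S (Lm S (inp (ind w) y.1)) = true then 1 else 0) +
          (if g S (Lm S (inp (ind w) (y.1 + sg w))) = false then 1 else 0) : ℕ) : ℝ) =
          (∑ S, if g S (fun j => chi (S j) (inp (ind w) y.1)) = true then p S else 0) +
          (∑ S, if g S (fun j => chi (S j) (inp (ind w) (y.1 + sg w))) = false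
            then p S else 0) := by
          rw [← Finset.sum_add_distrib]
          refine Finset.sum_congr rfl fun S _ => ?_
          have q1 : (Lm S (inp (ind w) y.1)) = fun j => chi (S j) (inp (ind w) y.1) := rfl
          have q2 : (Lm S (inp (ind w) (y.1 + sg w))) =
            fun j => chi (S j) (inp (ind w) (y.1 + sg w)) := rfl
          rw [q1, q2]
          split_ifs <;> push_cast <;> ring
        rw [hc]
        linarith
      have h3 : ∑ S, p S * (cnt S (g S) w : ℝ) = ∑ y : Yw w, ∑ S, p S *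
          (((if g S (Lm S (inp (ind w) y.1)) = true then 1 else 0) +
          (if g S (Lm S (inp (ind w) (y.1 + sg w))) = false then 1 else 0) : ℕ) : ℝ) := by
        rw [Finset.sum_comm]
        refine Finset.sum_congr rfl fun S _ => ?_
        rw [← Finset.mul_sum]
        congr 1
        unfold cnt
        rw [Nat.cast_sum]
      rw [h3, Nat.card_eq_fintype_card, ← Finset.card_univ, mul_comm, ← nsmul_eq_mul,
        ← Finset.sum_const]
      exact Finset.sum_le_sum fun y _ => h2 y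
    have h4 : ∑ S, p S * (cnt S (g S) w : ℝ) ≤
        ∑ S, (p S + if Good S w then p S else 0) * Nat.card (Yw w) := by
      refine Finset.sum_le_sum fun S _ => ?_
      by_cases hG : Good S w
      · rw [if_pos hG]
        have : (cnt S (g S) w : ℝ) ≤ 2 * Nat.card (Yw w) := by
          exact_mod_cast cnt_le S (g S) w
        nlinarith [hp0 S]
      · rw [if_neg hG, cnt_bad S (g S) w hG, add_zero]
    rw [← Finset.sum_mul, Finset.sum_add_distrib, hp1] at h4
    have h5 := h1.trans h4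
    have h6 := le_of_mul_le_mul_right h5 hcard
    linarith
  -- sum over w
  have h7 : (Fintype.card (T N) : ℝ) * (1 / 3) ≤ ∑ w : T N, ∑ S, if Good S w then p S else 0 := by
    rw [← Finset.card_univ, ← nsmul_eq_mul, ← Finset.sum_const]
    exact Finset.sum_le_sum fun w _ => hw w
  have h8 : ∑ w : T N, ∑ S, (if Good S w then p S else 0) ≤ ((k * N : ℕ) : ℝ) := by
    rw [Finset.sum_comm]
    calc ∑ S, ∑ w : T N, (if Good S w then p S else 0)
        = ∑ S, p S * ((Finset.univ.filter fun w : T N => Good S w).card : ℝ) := by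
          refine Finset.sum_congr rfl fun S _ => ?_
          rw [sum_ite_const, mul_comm]
      _ ≤ ∑ S, p S * ((k * N : ℕ) : ℝ) := by
          refine Finset.sum_le_sum fun S _ => mul_le_mul_of_nonneg_left ?_ (hp0 S)
          exact_mod_cast card_good_le S
      _ = _ := by rw [← Finset.sum_mul, hp1, one_mul]
  have h9 := h7.trans h8
  rw [card_T] at h9
  have h10 : (N.choose 3 : ℝ) ≤ ((3 * (k * N) : ℕ) : ℝ) := by
    push_cast at h9 ⊢
    linarith
  exact_mod_cast h10

/-- the trivial sketch -/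
theorem hasSketch_self {n : ℕ} (f : (Fin n → ZMod 2) → Bool) : HasSketch f n := by
  classical
  refine ⟨fun S => if S = (fun j => {j}) then 1 else 0, fun _ v => f v, fun S => ?_, ?_, ?_⟩
  · dsimp only
    split_ifs <;> norm_num
  · simp
  · intro x
    have : (∑ S : Fin n → Finset (Fin n), if f (fun j => chi (S j) x) = f x then
        (if S = (fun j => {j}) then (1 : ℝ) else 0) else 0) = 1 := by
      rw [Finset.sum_eq_single (fun j => {j})]
      · simp [chi]
      · intro S _ hS
        simp [hS]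
      · intro hh; exact absurd (Finset.mem_univ _) hh
    rw [this]; norm_num

theorem le_rlin (N : ℕ) (hN : 3 ≤ N) : (N - 1) * (N - 2) ≤ 18 * Rlin (ff N) := by
  have hne : {k | HasSketch (ff N) k}.Nonempty := ⟨_, hasSketch_self _⟩
  have h1 : HasSketch (ff N) (Rlin (ff N)) := Nat.sInf_mem hne
  have h2 := sketch_bound h1
  have h3 : N * (N - 1) * (N - 2) = 6 * N.choose 3 := by
    have := Nat.descFactorial_eq_factorial_mul_choose N 3
    rw [show Nat.factorial 3 = 6 from rfl] at this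
    rw [← this, Nat.descFactorial_succ, Nat.descFactorial_succ, Nat.descFactorial_succ,
      Nat.descFactorial_zero]
    rw [Nat.sub_zero, mul_one]
    ring
  have h4 : N * ((N - 1) * (N - 2)) ≤ N * (18 * Rlin (ff N)) := by
    calc N * ((N - 1) * (N - 2)) = 6 * N.choose 3 := by rw [← h3]; ring
      _ ≤ 6 * (3 * (Rlin (ff N) * N)) := Nat.mul_le_mul_left _ h2
      _ = N * (18 * Rlin (ff N)) := by ring
  exact Nat.le_of_mul_le_mul_left h4 (by omega)

/-! ### Asymptotics -/

theorem exists_large (K : ℝ) (m N0 : ℕ) : ∃ N : ℕ, N0 ≤ N ∧ K * Real.log N ^ m < N := by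
  have h1 : (fun x : ℝ => Real.log x ^ m) =o[Filter.atTop] (id : ℝ → ℝ) :=
    Real.isLittleO_pow_log_id_atTop
  have hK : (0 : ℝ) < 1 / (2 * (|K| + 1)) := by positivity
  have h2 := h1.bound hK
  have h3 := tendsto_natCast_atTop_atTop (R := ℝ) |>.eventually h2
  obtain ⟨N, hN⟩ := (h3.and (Filter.eventually_ge_atTop (max N0 1))).exists
  refine ⟨N, le_trans (le_max_left _ _) hN.2, ?_⟩
  have hN1 : 1 ≤ N := le_trans (le_max_right _ _) hN.2
  have hNpos : (0 : ℝ) < N := by exact_mod_cast hN1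
  have h4 := hN.1
  rw [Real.norm_eq_abs, Real.norm_eq_abs, id, abs_of_pos hNpos] at h4
  have h5 : K * Real.log N ^ m ≤ (|K| + 1) * |Real.log (N : ℝ) ^ m| := by
    calc K * Real.log N ^ m ≤ |K * Real.log N ^ m| := le_abs_self _
      _ = |K| * |Real.log (N : ℝ) ^ m| := abs_mul _ _
      _ ≤ _ := mul_le_mul_of_nonneg_right (by linarith) (abs_nonneg _)
  have h6 : (|K| + 1) * |Real.log (N : ℝ) ^ m| ≤ (|K| + 1) * (1 / (2 * (|K| + 1)) * N) :=
    mul_le_mul_of_nonneg_left h4 (by positivity)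
  have h7 : (|K| + 1) * (1 / (2 * (|K| + 1)) * (N : ℝ)) = N / 2 := by
    field_simp
  linarith

theorem n_le (N : ℕ) (hN : 2 ≤ N) : N + N.choose 3 ≤ N ^ 4 := by
  have h1 : N.choose 3 ≤ N ^ 3 := Nat.choose_le_pow N 3
  have h2 : N ≤ N ^ 3 := Nat.le_self_pow (by norm_num) N
  calc N + N.choose 3 ≤ N ^ 3 + N ^ 3 := Nat.add_le_add h2 h1
    _ = 2 * N ^ 3 := by ring
    _ ≤ N * N ^ 3 := Nat.mul_le_mul_right _ hN
    _ = N ^ 4 := by ring

theorem log_n_le (N : ℕ) (hN : 2 ≤ N) : Real.log ((N + N.choose 3 : ℕ) : ℝ) ≤ 4 * Real.log N := by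
  have h1 : ((N + N.choose 3 : ℕ) : ℝ) ≤ (N : ℝ) ^ 4 := by exact_mod_cast n_le N hN
  have h2 : (0 : ℝ) < ((N + N.choose 3 : ℕ) : ℝ) := by
    have : 0 < N + N.choose 3 := by omega
    exact_mod_cast this
  calc Real.log ((N + N.choose 3 : ℕ) : ℝ) ≤ Real.log ((N : ℝ) ^ 4) := Real.log_le_log h2 h1
    _ = 4 * Real.log N := by rw [Real.log_pow]; norm_num

theorem sq_bound (N : ℕ) (hN : 5 ≤ N) : (N : ℝ) ^ 2 / 4 ≤ (((N - 1) * (N - 2) : ℕ) : ℝ) := by
  obtain ⟨m, rfl⟩ : ∃ m, N = m + 5 := ⟨N - 5, by omega⟩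
  have e : (m + 5 - 1) * (m + 5 - 2) = (m + 4) * (m + 3) := by
    rw [show m + 5 - 1 = m + 4 by omega, show m + 5 - 2 = m + 3 by omega]
  rw [e]
  push_cast
  have : (0 : ℝ) ≤ m := Nat.cast_nonneg m
  nlinarith

/-- polynomial separation, functions on `N + C(N,3)` bits -/
theorem separation (N : ℕ) (hN : 3 ≤ N) :
    ∃ f : (Fin (N + N.choose 3) → ZMod 2) → Bool,
      HasOneWay (xorFn f) (5 * N + 4) ∧ ∀ k, HasSketch f k → (N - 1) * (N - 2) ≤ 18 * k :=
  ⟨ff N, hasOneWay_ff N, fun _ hk => le_trans (le_rlin N hN)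
    (Nat.mul_le_mul_left _ (Nat.sInf_le hk))⟩

/-- the exact negation with a real constant -/
theorem not_equiv : ¬ ∃ C : ℝ, 0 < C ∧ ∀ n : ℕ, 1 ≤ n → ∀ f : (Fin n → ZMod 2) → Bool,
    (Rone (xorFn f) : ℝ) / (C * (1 + Real.logb 2 n) ^ C) ≤ Rlin f ∧
      (Rlin f : ℝ) ≤ C * (1 + Real.logb 2 n) ^ C * Rone (xorFn f) := by
  rintro ⟨C, hC, h⟩
  obtain ⟨N, hN5, hN⟩ := exists_large (432 * C * 8 ^ ⌈C⌉₊) ⌈C⌉₊ 5
  have hn := (h (N + N.choose 3) (by omega) (ff N)).2
  have hNpos : (0 : ℝ) < N := by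
    have : 0 < N := by omega
    exact_mod_cast this
  have hlog1 : 1 ≤ Real.log (N : ℝ) := by
    rw [Real.le_log_iff_exp_le hNpos]
    have h1 := Real.exp_one_lt_d9
    have h2 : (5 : ℝ) ≤ N := by exact_mod_cast hN5
    linarith
  have hlogn0 : 0 ≤ Real.log ((N + N.choose 3 : ℕ) : ℝ) := Real.log_natCast_nonneg _
  have hlogn := log_n_le N (by omega)
  have hl2 := Real.log_two_gt_d9
  have hb : 1 + Real.logb 2 ((N + N.choose 3 : ℕ) : ℝ) ≤ 8 * Real.log N := by
    have : Real.logb 2 ((N + N.choose 3 : ℕ) : ℝ) ≤ 7 * Real.log N := by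
      unfold Real.logb
      rw [div_le_iff₀ (by linarith)]
      nlinarith
    linarith
  have hb1 : 1 ≤ 1 + Real.logb 2 ((N + N.choose 3 : ℕ) : ℝ) := by
    have : 0 ≤ Real.logb 2 ((N + N.choose 3 : ℕ) : ℝ) := div_nonneg hlogn0 (by linarith)
    linarith
  have hp : (1 + Real.logb 2 ((N + N.choose 3 : ℕ) : ℝ)) ^ C ≤ (8 * Real.log N) ^ ⌈C⌉₊ := by
    calc (1 + Real.logb 2 ((N + N.choose 3 : ℕ) : ℝ)) ^ C
        ≤ (1 + Real.logb 2 ((N + N.choose 3 : ℕ) : ℝ)) ^ (⌈C⌉₊ : ℝ) :=
          Real.rpow_le_rpow_of_exponent_le hb1 (Nat.le_ceil C)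
      _ = (1 + Real.logb 2 ((N + N.choose 3 : ℕ) : ℝ)) ^ ⌈C⌉₊ := Real.rpow_natCast _ _
      _ ≤ _ := pow_le_pow_left₀ (by linarith) hb _
  have hR : (Rone (xorFn (ff N)) : ℝ) ≤ 6 * N := by
    have h1 : Rone (xorFn (ff N)) ≤ 6 * N := le_trans (rone_le N) (by omega)
    exact_mod_cast h1
  have hL : (N : ℝ) ^ 2 / 4 ≤ 18 * Rlin (ff N) := by
    refine le_trans (sq_bound N hN5) ?_
    exact_mod_cast le_rlin N (by omega)
  have hfin : (Rlin (ff N) : ℝ) ≤ C * (8 * Real.log N) ^ ⌈C⌉₊ * (6 * N) := by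
    refine le_trans hn ?_
    have h1 : C * (1 + Real.logb 2 ((N + N.choose 3 : ℕ) : ℝ)) ^ C ≤
        C * (8 * Real.log N) ^ ⌈C⌉₊ := mul_le_mul_of_nonneg_left hp hC.le
    exact mul_le_mul h1 hR (Nat.cast_nonneg _) (by positivity)
  have h9 : C * (8 * Real.log (N : ℝ)) ^ ⌈C⌉₊ * (6 * N) * 72 =
      (432 * C * 8 ^ ⌈C⌉₊ * Real.log N ^ ⌈C⌉₊) * N := by
    rw [mul_pow]; ring
  nlinarith

/-- the sequence form -/
theorem sequence_form : ∃ f : (n : ℕ) → (Fin n → ZMod 2) → Bool,
    ∀ (C : ℝ) (d n₀ : ℕ), ∃ n : ℕ, n₀ ≤ n ∧ 2 ≤ n ∧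
      C * Real.log n ^ d < (Rlin (f n) : ℝ) / (Rone (xorFn (f n)) + 1) := by
  have hex : ∀ n : ℕ, ∃ f : (Fin n → ZMod 2) → Bool, ∀ N : ℕ, 3 ≤ N → N + N.choose 3 = n →
      Rone (xorFn f) ≤ 5 * N + 4 ∧ (N - 1) * (N - 2) ≤ 18 * Rlin f := by
    intro n
    by_cases h : ∃ N : ℕ, 3 ≤ N ∧ N + N.choose 3 = n
    · obtain ⟨N, hN, rfl⟩ := h
      refine ⟨ff N, fun N' hN' he => ?_⟩
      have : N' = N := by
        rcases lt_trichotomy N' N with hlt | heq | hgt
        · have := Nat.choose_le_choose 3 hlt.le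
          omega
        · exact heq
        · have := Nat.choose_le_choose 3 hgt.le
          omega
      subst this
      exact ⟨rone_le _, le_rlin _ hN⟩
    · exact ⟨fun _ => false, fun N hN he => absurd ⟨N, hN, he⟩ h⟩
  choose f hf using hex
  refine ⟨f, fun C d n₀ => ?_⟩
  obtain ⟨N, hN5, hN⟩ := exists_large (432 * |C| * 4 ^ d) d (max 5 n₀)
  have h5 : 5 ≤ N := le_trans (le_max_left _ _) hN5
  refine ⟨N + N.choose 3, le_trans (le_max_right _ _) (le_trans hN5 (by omega)), by omega, ?_⟩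
  obtain ⟨hR, hL⟩ := hf (N + N.choose 3) N (by omega) rfl
  have hNpos : (0 : ℝ) < N := by
    have : 0 < N := by omega
    exact_mod_cast this
  have hlogn0 : 0 ≤ Real.log ((N + N.choose 3 : ℕ) : ℝ) := Real.log_natCast_nonneg _
  have hlogn := log_n_le N (by omega)
  have hR' : (Rone (xorFn (f (N + N.choose 3))) : ℝ) + 1 ≤ 6 * N := by
    have h1 : Rone (xorFn (f (N + N.choose 3))) + 1 ≤ 6 * N := by omega
    exact_mod_cast h1
  have hL' : (N : ℝ) ^ 2 / 4 ≤ 18 * Rlin (f (N + N.choose 3)) := by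
    refine le_trans (sq_bound N h5) ?_
    exact_mod_cast hL
  have hpos : (0 : ℝ) < (Rone (xorFn (f (N + N.choose 3))) : ℝ) + 1 := by positivity
  rw [lt_div_iff₀ hpos]
  have h1 : C * Real.log ((N + N.choose 3 : ℕ) : ℝ) ^ d ≤ |C| * (4 * Real.log N) ^ d := by
    calc C * Real.log ((N + N.choose 3 : ℕ) : ℝ) ^ d
        ≤ |C| * Real.log ((N + N.choose 3 : ℕ) : ℝ) ^ d :=
          mul_le_mul_of_nonneg_right (le_abs_self C) (pow_nonneg hlogn0 _)
      _ ≤ _ := mul_le_mul_of_nonneg_left (pow_le_pow_left₀ hlogn0 hlogn _) (abs_nonneg C)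
  have hlN : 0 ≤ Real.log (N : ℝ) := Real.log_natCast_nonneg _
  have h2 : C * Real.log ((N + N.choose 3 : ℕ) : ℝ) ^ d *
      ((Rone (xorFn (f (N + N.choose 3))) : ℝ) + 1) ≤ |C| * (4 * Real.log N) ^ d * (6 * N) := by
    calc _ ≤ |C| * (4 * Real.log N) ^ d * ((Rone (xorFn (f (N + N.choose 3))) : ℝ) + 1) :=
          mul_le_mul_of_nonneg_right h1 hpos.le
      _ ≤ _ := mul_le_mul_of_nonneg_left hR' (by positivity)
  have h9 : |C| * (4 * Real.log (N : ℝ)) ^ d * (6 * N) * 72 =
      (432 * |C| * 4 ^ d * Real.log N ^ d) * N := by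
    rw [mul_pow]; ring
  nlinarith

end Pool.Agent.Helper12.SketchSep
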